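import Mathlib
import Pool.Agent.W980.GT.Total
import Pool.Agent.W980.GC.Upper

/-!
# The parameterized clique problem has no approximation within any ratio on parallel machines

There is an absolute constant `A` such that on ideal parallel machines (priority CRCW PRAMs with
arbitrary instruction set, unbounded words and memory, and even with list searches as single
steps) graphs with a `k`-clique are not told in `T` steps from graphs all of whose cliques have at
most `r ≤ k` vertices with `n ^ (r / A)` processors, if `r ≥ A` and `n ≥ (T k) ^ (A T k / r)`, not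
even on average. So for no functions `s`, `f`, `g` with `g(r) = o(r)` graphs with a clique of
`s(r)` vertices can be told from graphs without cliques of more than `r` vertices in
`o(log n / log log n)` steps with `f(r) n ^ g(r)` processors; in particular this holds for
`f(r) n ^ c` processors. On the other hand `n choose (r + 1)` processors find out in one step
whether there is a clique with `r + 1` vertices.
-/

namespace Pool.Agent.Results.MP_ba3460_lc.ParallelApproximation

open DomAC0 Filter Topology Pool.Agent.H72.Clq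
open Pool.Agent.W964.Pram hiding push push_sum push_total push_nonneg push_ne

open Classical in
theorem result :
    (∃ A : ℕ, 1 ≤ A ∧ ∀ T r k n : ℕ, 1 ≤ T → A ≤ r → r ≤ k →
      ((T : ℝ) * k) ^ ((A : ℝ) * T * k / r) ≤ n →
        ∃ ν₀ ν₁ : SimpleGraph (Fin n) → ℝ,
          ((∀ G, 0 ≤ ν₀ G) ∧ ∑ G, ν₀ G = 1) ∧ ((∀ G, 0 ≤ ν₁ G) ∧ ∑ G, ν₁ G = 1) ∧
          (∀ G, ν₁ G ≠ 0 → ¬ G.CliqueFree k) ∧
          (∑ G, ν₀ G * (if CliquesLe r G then 0 else 1)) ≤ (n : ℝ) ^ (-((r : ℝ) / A)) ∧
          ∀ P K : ℕ, (P : ℝ) ≤ (n : ℝ) ^ ((r : ℝ) / A) → (K : ℝ) ≤ (n : ℝ) ^ ((r : ℝ) / A) →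
            (∀ M : Machine (Pairs n) P, M.Lists K →
              |(∑ G, ν₀ G * (if M.answer T (adjBits G) = true then 1 else 0)) -
                ∑ G, ν₁ G * (if M.answer T (adjBits G) = true then 1 else 0)| ≤
                  (n : ℝ) ^ (-((r : ℝ) / (A * k)))) ∧
            (∀ R : RandMachine (Pairs n) P, R.Lists K → ∃ G : SimpleGraph (Fin n),
              (¬ G.CliqueFree k ∧
                R.success T (adjBits G) True ≤ 1 / 2 + (n : ℝ) ^ (-((r : ℝ) / (A * k)))) ∨
              (CliquesLe r G ∧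
                R.success T (adjBits G) False ≤ 1 / 2 + (n : ℝ) ^ (-((r : ℝ) / (A * k)))))) ∧
    (∀ s : ℕ → ℕ, (∀ r, r ≤ s r) → ∀ f g : ℕ → ℝ,
      Tendsto (fun r : ℕ => g r / r) atTop (𝓝 0) →
      ∀ T : ℕ → ℕ → ℕ, (∀ r n, 1 ≤ T r n) →
      (∀ r, Tendsto (fun n : ℕ => (T r n : ℝ) * Real.log (Real.log n) / Real.log n)
        atTop (𝓝 0)) →
      ∀ᶠ r : ℕ in atTop, ∀ᶠ n : ℕ in atTop, ∀ P K : ℕ,
        (P : ℝ) ≤ f r * (n : ℝ) ^ g r → (K : ℝ) ≤ f r * (n : ℝ) ^ g r →
        ∀ R : RandMachine (Pairs n) P, R.Lists K → ∃ G : SimpleGraph (Fin n),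
          (¬ G.CliqueFree (s r) ∧ R.success (T r n) (adjBits G) True < 2 / 3) ∨
          (CliquesLe r G ∧ R.success (T r n) (adjBits G) False < 2 / 3)) ∧
    (∀ n r : ℕ, ∃ M : Machine (Pairs n) (n.choose (r + 1)), M.Lists ((r + 1) ^ 2) ∧
      ∀ T : ℕ, 1 ≤ T → ∀ G : SimpleGraph (Fin n),
        M.answer T (adjBits G) = true ↔ ¬ G.CliqueFree (r + 1)) :=
  ⟨Pool.Agent.W980.GT.total_gap,
    fun s hs f g hg T hT1 hT => Pool.Agent.W980.GT.total_asym s hs f g hg T hT1 hT,
    fun n r => Pool.Agent.W980.GC.clique_upperM n (r + 1)⟩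

end Pool.Agent.Results.MP_ba3460_lc.ParallelApproximation
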