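import Mathlib
import Pool.Agent.H542R2.CL.Main2
import Pool.Agent.H542R2.PMFinal
import Pool.Agent.W929.TW.Conj

/-!
# Refutations of small treewidth of the existence of a clique

The lines of a refutation are arbitrary predicates on `k`-tuples of vertices with descriptions of
`n ^ δ` bits, the inferences are arbitrary sound inferences, the refutations are dag-like, and the
resource which is bounded is the treewidth of the dag: for some `k`-partite graphs without a
clique of `ε k` vertices, every such refutation of treewidth at most `n ^ δ` of the existence of a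
clique with one vertex in each part has at least `n ^ (c k)` lines.
-/

namespace Pool.Agent.Results.MP_ba3460_lc.TreewidthClique

/-- A choice of one vertex in each of the `k` parts. -/
abbrev Choice (k n : ℕ) := Fin k → Fin n

/-- The vertices: `k` parts with `n` vertices each. -/
abbrev Vtx (k n : ℕ) := Fin k × Fin n

/-- The axiom of a pair of vertices: not both are chosen. -/
def Ax {k n : ℕ} (u w : Vtx k n) (z : Choice k n) : Prop := ¬ (z u.1 = u.2 ∧ z w.1 = w.2)

/-- The pair `p` consists of two non-adjacent vertices of different parts. -/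
def NonAdj {k n : ℕ} (G : SimpleGraph (Vtx k n)) (p : Vtx k n × Vtx k n) : Prop :=
  p.1.1 ≠ p.2.1 ∧ ¬ G.Adj p.1 p.2

/-- A dag-like refutation with `S` lines of the statement
`G has a clique with one vertex in each part`.  Every line is a predicate from the set `A` of
allowed lines; every line is semantically implied by its premises, at most `a` earlier lines,
together with at most `a` axioms of non-adjacent pairs; some line is unsatisfiable. -/
structure Refutation {k n : ℕ} (G : SimpleGraph (Vtx k n)) (A : Finset (Choice k n → Bool))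
    (a S : ℕ) where
  line : Fin S → Choice k n → Bool
  mem : ∀ j, line j ∈ A
  prem : Fin S → Finset (Fin S)
  card_prem : ∀ j, (prem j).card ≤ a
  prem_lt : ∀ j, ∀ p ∈ prem j, p < j
  sound : ∀ j, ∃ C : Finset (Vtx k n × Vtx k n), C.card ≤ a ∧ (∀ p ∈ C, NonAdj G p) ∧
    ∀ z, (∀ p ∈ C, Ax p.1 p.2 z) → (∀ p ∈ prem j, line p z = true) → line j z = true
  final : ∃ j, ∀ z, line j z = false

/-- A tree decomposition of width at most `b` of the graph whose vertices are the lines of the
refutation and in which every line is joined to its premises: a tree with bags of at most `b + 1`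
lines at its nodes, such that every line is in some bag, every line is in a common bag with each
of its premises, and the nodes whose bags contain a given line form a connected subtree. -/
structure TreeDecomposition {k n : ℕ} {G : SimpleGraph (Vtx k n)}
    {A : Finset (Choice k n → Bool)} {a S : ℕ} (π : Refutation G A a S) (b : ℕ) where
  size : ℕ
  tree : SimpleGraph (Fin size)
  isTree : tree.IsTree
  bag : Fin size → Finset (Fin S)
  card_bag : ∀ t, (bag t).card ≤ b + 1
  line_mem : ∀ j, ∃ t, j ∈ bag t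
  prem_mem : ∀ j, ∀ p ∈ π.prem j, ∃ t, j ∈ bag t ∧ p ∈ bag t
  connected : ∀ j, (tree.induce {t | j ∈ bag t}).Preconnected

open H542PM H542.CL Finset Pool.Agent.W929.TW

theorem pairCl_iff {k n : ℕ} (u w : Vtx k n) (z : Choice k n) :
    pairCl u w z = true ↔ Ax u w z := by
  unfold pairCl Ax
  simp [imp_iff_not_or]

/-- For every `ε > 0` there are `c, δ > 0` such that for every `k` with `ε k > 1` and all large `n`
the following holds.  Let `A` be any set of at most `2 ^ (n ^ δ)` predicates on the choices of one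
vertex in each of `k` parts of `n` vertices.  Then there is a `k`-partite graph on these vertices
in which every clique has fewer than `ε k` vertices, such that every dag-like refutation, with
lines from `A`, with at most `n ^ δ` premises and axioms per inference and of treewidth at most
`n ^ δ`, of the statement that it has a clique with one vertex in each part has at least
`n ^ (c k)` lines. -/
theorem result (ε : ℝ) (hε : 0 < ε) : ∃ c δ : ℝ, 0 < c ∧ 0 < δ ∧ ∀ k : ℕ, 1 < ε * k →
    ∃ n0 : ℕ, ∀ n ≥ n0, ∀ A : Finset (Choice k n → Bool),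
      (A.card : ℝ) ≤ (2 : ℝ) ^ ((n : ℝ) ^ δ) → ∃ G : SimpleGraph (Vtx k n),
        (∀ u w, G.Adj u w → u.1 ≠ w.1) ∧
        (∀ s : Finset (Vtx k n), G.IsClique (s : Set (Vtx k n)) → (s.card : ℝ) < ε * k) ∧
        ∀ (a b S : ℕ) (π : Refutation G A a S), (a : ℝ) ≤ (n : ℝ) ^ δ → (b : ℝ) ≤ (n : ℝ) ^ δ →
          Nonempty (TreeDecomposition π b) → (n : ℝ) ^ (c * k) ≤ S := by
  classical
  obtain ⟨δ, c, hδ, hc, hmain⟩ := main_good ε hε
  refine ⟨c / 8, δ / 4, by positivity, by positivity, fun k hk => ?_⟩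
  obtain ⟨n0, hn0⟩ := hmain k hk
  obtain ⟨n1, hn1⟩ : ∃ n1 : ℕ, ∀ n ≥ n1, (2 : ℝ) ≤ (n : ℝ) ^ (δ / 4) := by
    have h1 := (tendsto_rpow_atTop (by positivity : 0 < δ / 4)).comp
      (tendsto_natCast_atTop_atTop (R := ℝ))
    obtain ⟨n1, h⟩ := Filter.eventually_atTop.mp (h1.eventually_ge_atTop 2)
    exact ⟨n1, fun n hn => h n hn⟩
  refine ⟨max (max n0 n1) 2, fun n hn A hA => ?_⟩
  have hn2 : 2 ≤ n := (le_max_right _ _).trans hn
  have hnn1 : n1 ≤ n := (le_max_right _ _).trans ((le_max_left _ _).trans hn)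
  obtain ⟨T, x, hT, hx8, hcx, hTx, hTq, hT4, hB⟩ :=
    hn0 n ((le_max_left _ _).trans ((le_max_left _ _).trans hn))
  have hT4R : (4 : ℝ) ≤ T := by exact_mod_cast hT4
  have hnR : (2 : ℝ) ≤ n := by exact_mod_cast hn2
  obtain ⟨w, hw⟩ : ∃ w : ℝ, w = (n : ℝ) ^ (δ / 4) := ⟨_, rfl⟩
  have hw2 : 2 ≤ w := by rw [hw]; exact hn1 n hnn1
  have hw4 : w ^ 4 ≤ T := by
    refine le_trans (le_of_eq ?_) hT
    rw [hw, ← Real.rpow_natCast, ← Real.rpow_mul (by positivity)]
    congr 1
    push_cast
    ring
  obtain ⟨y, hy⟩ : ∃ y : ℕ, y = ⌊w⌋₊ := ⟨_, rfl⟩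
  have hyw : (y : ℝ) ≤ w := by rw [hy]; exact Nat.floor_le (by linarith)
  have hy2 : 2 ≤ y := by rw [hy]; exact Nat.le_floor (by exact_mod_cast hw2)
  have hy4 : y ^ 4 ≤ T := by
    have h1 : ((y ^ 4 : ℕ) : ℝ) ≤ T := by
      push_cast
      exact (pow_le_pow_left₀ (by positivity) hyw 4).trans hw4
    exact_mod_cast h1
  obtain ⟨s, hs⟩ : ∃ s : ℕ, s = (y + 1) * (y + 1) + 1 := ⟨_, rfl⟩
  have hsT : s ≤ T := by
    refine le_trans ?_ hy4
    rw [hs]
    have h1 : 4 ≤ y * y := by nlinarith
    have h2 : 2 * y ≤ y * y := Nat.mul_le_mul_right _ hy2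
    have h3 : y ^ 4 = (y * y) * (y * y) := by ring
    have h4 : 4 * (y * y) ≤ (y * y) * (y * y) := Nat.mul_le_mul_right _ h1
    rw [h3]
    nlinarith
  have hAT : A.card ≤ 2 ^ T := by
    have h1 : (A.card : ℝ) ≤ (2 : ℝ) ^ (T : ℝ) := by
      refine hA.trans (Real.rpow_le_rpow_of_exponent_le (by norm_num) ?_)
      rw [← hw]
      refine le_trans ?_ hw4
      nlinarith [pow_le_pow_left₀ (by linarith : (0 : ℝ) ≤ 1) (by linarith : 1 ≤ w) 3]
    rw [Real.rpow_natCast] at h1
    exact_mod_cast h1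
  have hcard : (conj A s).card ≤ 2 ^ (T ^ 2 + T) := by
    refine (card_conj A s).trans ?_
    have h1 : A.card + 1 ≤ 2 ^ (T + 1) := by
      rw [pow_succ]
      have : 1 ≤ 2 ^ T := Nat.one_le_two_pow
      omega
    calc (A.card + 1) ^ s ≤ (2 ^ (T + 1)) ^ s := Nat.pow_le_pow_left h1 _
      _ = 2 ^ ((T + 1) * s) := by rw [← pow_mul]
      _ ≤ 2 ^ (T ^ 2 + T) := by
          apply Nat.pow_le_pow_right (by norm_num)
          nlinarith
  obtain ⟨G, μ, hG1, hG2, hg⟩ := hB (conj A s) hcard
  refine ⟨G, hG1, hG2, ?_⟩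
  rintro a b S π ha hb ⟨τ⟩
  rw [← hw] at ha hb
  have hay : a ≤ y := by rw [hy]; exact Nat.le_floor ha
  have hby : b ≤ y := by rw [hy]; exact Nat.le_floor hb
  obtain ⟨r, hr⟩ := π.final
  have hx0 : 0 ≤ x := by linarith
  have hyT : y ≤ T := by
    refine le_trans ?_ hy4
    have : 1 ≤ y ^ 3 := Nat.one_le_pow _ _ (by omega)
    nlinarith
  have hbound : 1 / 2 ≤ (S : ℝ) * ((a + 2 * (s : ℝ) ^ 2) * (2 : ℝ) ^ (-x)) := by
    refine treewidth_bound hg τ.isTree (line := π.line) (P := π.prem) (a := a) (b := b) ?_ ?_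
      π.mem π.card_prem π.prem_lt ?_ hr τ.card_bag τ.line_mem τ.prem_mem τ.connected
    · have : a ≤ T := hay.trans hyT
      nlinarith
    · have h1 : (b + 1) * (a + 1) ≤ (y + 1) * (y + 1) := Nat.mul_le_mul (by omega) (by omega)
      rw [hs]
      omega
    · intro j
      obtain ⟨C, hCa, hCG, h⟩ := π.sound j
      refine ⟨C.toList.map fun p => pairCl p.1 p.2, ?_, ?_, ?_⟩
      · rw [List.length_map, length_toList]
        exact hCa
      · intro f hf
        obtain ⟨p, hp, rfl⟩ := List.mem_map.mp hf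
        have hp' := hCG p (mem_toList.mp hp)
        exact ⟨p.1, p.2, hp'.1, hp'.2, rfl⟩
      · intro z hz hp
        apply h z _ hp
        intro p hpC
        exact (pairCl_iff p.1 p.2 z).mp (hz _ (List.mem_map.mpr ⟨p, mem_toList.mpr hpC, rfl⟩))
  have hS : (2 : ℝ) ^ (x / 2) ≤ S := by
    apply num_lin (X := (a : ℝ) + 2 * (s : ℝ) ^ 2) hx0 (by positivity) _ hbound
    refine le_trans ?_ hTx
    have h1 : a + 2 * s ^ 2 ≤ (T + 2) ^ 2 := by
      have h2 : 2 * s ≤ 5 * (y * y) := by
        rw [hs]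
        nlinarith
      have h3 : 16 ≤ y ^ 4 := by
        calc 16 = 2 ^ 4 := by norm_num
          _ ≤ y ^ 4 := Nat.pow_le_pow_left hy2 4
      have h4 : 4 * (s * s) ≤ 25 * y ^ 4 := by
        have : (2 * s) * (2 * s) ≤ (5 * (y * y)) * (5 * (y * y)) := Nat.mul_le_mul h2 h2
        nlinarith
      have h5 : 16 * T ≤ T * T := Nat.mul_le_mul_right _ (h3.trans hy4)
      nlinarith
    have h2 : ((a + 2 * s ^ 2 : ℕ) : ℝ) ≤ (((T + 2) ^ 2 : ℕ) : ℝ) := by exact_mod_cast h1
    push_cast at h2
    linarith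
  refine le_trans ?_ hS
  have h1 : (n : ℝ) = (2 : ℝ) ^ (Real.logb 2 n) :=
    (Real.rpow_logb (by norm_num) (by norm_num) (by linarith)).symm
  calc (n : ℝ) ^ (c / 8 * k) = ((2 : ℝ) ^ (Real.logb 2 n)) ^ (c / 8 * k) := by rw [← h1]
    _ = (2 : ℝ) ^ (Real.logb 2 n * (c / 8 * k)) := (Real.rpow_mul (by norm_num) _ _).symm
    _ ≤ (2 : ℝ) ^ (x / 2) := by
        apply Real.rpow_le_rpow_of_exponent_le (by norm_num)
        have h2 : Real.logb 2 n * (c / 8 * k) = c * (k * Real.logb 2 n) / 8 := by ring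
        rw [h2]
        linarith

end Pool.Agent.Results.MP_ba3460_lc.TreewidthClique
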